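import Pool.Agent.KS6_36.CL.A

set_option autoImplicit false

namespace Pool.Agent.Results.MP_83e673_co.AllButPowersPlusOne

/-- `m` is the chromatic number of some cube-like graph, that is, of some Cayley graph of `(ℤ/2)^d`. -/
def Attained (m : ℕ) : Prop :=
  ∃ d : ℕ, ∃ S : Set (Fin d → ZMod 2),
    (SimpleGraph.fromRel (fun x y : Fin d → ZMod 2 => x + y ∈ S)).chromaticNumber = (m : ℕ∞)

/-- Every positive integer other than `3` that is not of the form `2 ^ K + 1` with `K ≥ 2` is the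
chromatic number of a cube-like graph; `3` is not. Hence there is a function `f` as in the question,
with `f 0 = f 1 = f 2 = 0` and `f n` equal to `2 ^ (n - 1) - 1` or `2 ^ (n - 1) - 2` for all `n ≥ 3`. -/
theorem result :
    (∀ m : ℕ, 0 < m → m ≠ 3 → (∀ K, 2 ≤ K → m ≠ 2 ^ K + 1) → Attained m) ∧ ¬ Attained 3 ∧
    ∃ f : ℕ → ℕ, (∀ n, n ≤ 2 → f n = 0) ∧
      (∀ K, 2 ≤ K → f (K + 1) = 2 ^ K - 1 ∨ f (K + 1) = 2 ^ K - 2) ∧
      ∀ m : ℕ, 0 < m → (Attained m ↔ ∃ n : ℕ, 2 ^ n - f n ≤ m ∧ m ≤ 2 ^ n) :=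
  Pool.Agent.KS6_36.CL.main

end Pool.Agent.Results.MP_83e673_co.AllButPowersPlusOne
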